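import Pool.Agent.Helper92.ZH.Goals

/-!
# Packet T3-RESE (project T3, P3, MP_a41896_nt): elimination of one variable by a resultant
-/

set_option autoImplicit false

open MvPolynomial

namespace Pool.Agent.Helper34.ZH.RESE

open WeierstrassCurve Height
open Pool.Agent.Helper29.BL Pool.Agent.Helper92.Ru Pool.Agent.Helper42.SG
open Pool.Agent.Helper65.SG (NPol FRPO NQH)
open Pool.Agent.Helper68.VN
open Pool.Agent.Helper68.T3 (TayW)
open Pool.Agent.Helper60.HC (Lo)
open Pool.Agent.Helper92.ZH

noncomputable section

/-! ## Degrees of a determinant -/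

lemma degreeOf_det_le {K V : Type} [Field K] {s : ℕ}
    (B : Matrix (Fin s) (Fin s) (MvPolynomial V K)) (h : V) (b : Fin s → ℕ)
    (hb : ∀ i j, (B i j).degreeOf h ≤ b j) : B.det.degreeOf h ≤ ∑ j, b j := by
  classical
  rw [Matrix.det_apply]
  refine (degreeOf_sum_le _ _ _).trans (Finset.sup_le fun τ _ => ?_)
  have h1 : (Equiv.Perm.sign τ • ∏ i, B (τ i) i).degreeOf h = (∏ i, B (τ i) i).degreeOf h := by
    rcases Int.units_eq_one_or (Equiv.Perm.sign τ) with h2 | h2
    · rw [h2, one_smul]
    · rw [h2, Units.neg_smul, one_smul, degreeOf_neg]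
  rw [h1]
  exact (degreeOf_prod_le _ _ _).trans (Finset.sum_le_sum fun i _ => hb _ _)

/-! ## The norm of a polynomial with bounded coefficients -/

lemma card_supp {K V : Type} [Field K] [Fintype V] (F : MvPolynomial V K) (n : ℕ)
    (hF : ∀ h, F.degreeOf h ≤ n) : F.support.card ≤ (n + 1) ^ Fintype.card V := by
  classical
  have h1 : F.support.card = (F.support.image fun m : V →₀ ℕ => (m : V → ℕ)).card :=
    (Finset.card_image_of_injective _ DFunLike.coe_injective).symm
  rw [h1]
  have h2 : (F.support.image fun m : V →₀ ℕ => (m : V → ℕ)) ⊆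
      Fintype.piFinset fun _ : V => Finset.range (n + 1) := by
    intro m hm
    obtain ⟨m', hm', rfl⟩ := Finset.mem_image.1 hm
    rw [Fintype.mem_piFinset]
    intro h
    rw [Finset.mem_range]
    exact Nat.lt_succ_of_le ((degreeOf_le_iff.1 (hF h)) m' hm')
  refine (Finset.card_le_card h2).trans ?_
  rw [Fintype.card_piFinset]
  simp

lemma rpw_one {V : Type} (α : V →₀ ℕ) : rpw (fun _ : V => (1 : ℝ)) α = 1 := by
  unfold rpw Finsupp.prod
  simp

lemma npol_of_coeff {K V : Type} [Field K] [Fintype V] (v : AbsoluteValue K ℝ)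
    (F : MvPolynomial V K) (n : ℕ) (G : ℝ) (hG : 0 ≤ G) (hc : ∀ m, v (coeff m F) ≤ G)
    (hF : ∀ h, F.degreeOf h ≤ n) :
    NPol v F (cst v (((n : ℝ) + 1) ^ Fintype.card V) * G) := by
  classical
  unfold NPol NPS
  have hcst : 0 ≤ cst v (((n : ℝ) + 1) ^ Fintype.card V) := by
    unfold cst
    split_ifs
    · exact zero_le_one
    · positivity
  refine ⟨mul_nonneg hcst hG, fun hv α => ?_, fun hv S => ?_⟩
  · rw [rpw_one, mul_one, coeff_coe]
    unfold cst
    rw [if_pos hv, one_mul]
    exact hc α
  · unfold cst
    rw [if_neg hv]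
    have h1 : ∑ α ∈ S, v (MvPowerSeries.coeff α (F : MvPowerSeries V K)) *
        rpw (fun _ : V => (1 : ℝ)) α = ∑ α ∈ S.filter (fun α => α ∈ F.support), v (coeff α F) := by
      rw [Finset.sum_filter]
      refine Finset.sum_congr rfl fun α _ => ?_
      rw [rpw_one, mul_one, coeff_coe]
      split_ifs with h2
      · rfl
      · rw [notMem_support_iff.1 h2, map_zero]
    rw [h1]
    refine (Finset.sum_le_card_nsmul _ _ G fun α _ => hc α).trans ?_
    rw [nsmul_eq_mul]
    refine mul_le_mul_of_nonneg_right ?_ hG
    have h3 : (S.filter (fun α => α ∈ F.support)).card ≤ (n + 1) ^ Fintype.card V :=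
      (Finset.card_le_card fun α hα => (Finset.mem_filter.1 hα).2).trans (card_supp F n hF)
    exact_mod_cast h3

lemma coeff_le_sup {K V : Type} [Field K] (v : AbsoluteValue K ℝ) (F : MvPolynomial V K)
    (m : V →₀ ℕ) : v (coeff m F) ≤ ⨆ m : F.support, v (coeff m.1 F) := by
  classical
  by_cases hm : m ∈ F.support
  · exact le_ciSup (f := fun m : F.support => v (coeff m.1 F)) (Set.finite_range _).bddAbove ⟨m, hm⟩
  · rw [notMem_support_iff.1 hm, map_zero]
    exact Real.iSup_nonneg fun _ => v.nonneg _

lemma sup_nonneg {K V : Type} [Field K] (v : AbsoluteValue K ℝ) (F : MvPolynomial V K) :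
    0 ≤ ⨆ m : F.support, v (coeff m.1 F) := Real.iSup_nonneg fun _ => v.nonneg _

lemma cst_nonneg' {K : Type} [Field K] (v : AbsoluteValue K ℝ) {x : ℝ} (hx : 0 ≤ x) :
    0 ≤ cst v x := by
  unfold cst
  split_ifs
  · exact zero_le_one
  · exact hx

/-- counting an interval of rows. -/
lemma card_icc {s : ℕ} (a b : ℕ) (P : Fin s → Prop)
    (hP : ∀ i, P i → (i : ℕ) ∈ Set.Icc a (a + b)) : Nat.card {i : Fin s // P i} ≤ b + 1 := by
  classical
  have h1 : Nat.card {i : Fin s // P i} ≤ Nat.card (Finset.Icc a (a + b)) := by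
    refine Nat.card_le_card_of_injective
      (fun i => (⟨(i.1 : ℕ), Finset.mem_Icc.2 (hP i.1 i.2)⟩ : Finset.Icc a (a + b))) ?_
    intro i j hij
    have h2 : (i.1 : ℕ) = (j.1 : ℕ) := congrArg (fun z => z.1) hij
    exact Subtype.ext (Fin.ext h2)
  refine h1.trans ?_
  rw [Nat.card_eq_fintype_card, Fintype.card_coe, Nat.card_Icc]
  omega

lemma log_add_one_le (n : ℕ) : Real.log ((n : ℝ) + 1) ≤ n := by
  have h := Real.log_le_sub_one_of_pos (show (0 : ℝ) < (n : ℝ) + 1 by positivity)
  linarith

theorem t (h1 : SEPV) (h2 : DETN) (h3 : HT2) (h4 : FRPO) : Pool.Agent.Helper92.ZH.RESE := by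
  intro K _ _ V _ _ D0
  classical
  refine ⟨Module.finrank ℚ K * ((Fintype.card V + 1) * (2 * D0)), by positivity, ?_⟩
  intro h0 g Q N0 N hgD hg1 hQ0 hN0 hN1 hQN
  obtain ⟨gdeg, gco, gle, gz, gev, gX⟩ := h1 K V h0 g
  obtain ⟨Qdeg, Qco, Qle, Qz, Qev, QX⟩ := h1 K V h0 Q
  set P := sepV h0 g with hP
  set P' := sepV h0 Q with hP'
  set D := g.degreeOf h0 with hD
  have hD0 : D ≤ D0 := hgD h0
  set R : MvPolynomial V K := Polynomial.resultant P P' D N0 with hR
  have hgne : g ≠ 0 := by
    rintro rfl
    rw [hD, degreeOf_zero] at hg1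
    omega
  -- the entries
  have hentry : ∀ (F : MvPolynomial V K → Prop), F 0 → (∀ k, F (P.coeff k)) →
      (∀ k, F (P'.coeff k)) → ∀ i j, F (Polynomial.sylvester P P' D N0 i j) := by
    intro F hF0 hFP hFP' i j
    unfold Polynomial.sylvester
    rw [Matrix.of_apply]
    induction j using Fin.addCases with
    | left j =>
      rw [Fin.addCases_left]
      split_ifs
      · exact hFP' _
      · exact hF0
    | right j =>
      rw [Fin.addCases_right]
      split_ifs
      · exact hFP _
      · exact hF0
  refine ⟨R, ?_, ?_, ?_, ?_, ?_⟩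
  · -- degree in `h0`
    have h5 := degreeOf_det_le (Polynomial.sylvester P P' D N0) h0 (fun _ => 0)
      (fun i j => le_of_eq (hentry (fun F => F.degreeOf h0 = 0) (degreeOf_zero _) gz Qz i j))
    rw [Finset.sum_const_zero] at h5
    exact Nat.le_zero.1 h5
  · -- degrees
    intro h
    have h5 := degreeOf_det_le (Polynomial.sylvester P P' D N0) h
      (fun j => Fin.addCases (motive := fun _ => ℕ) (fun _ => Q.degreeOf h)
        (fun _ => g.degreeOf h) j) (by
        intro i j
        unfold Polynomial.sylvester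
        rw [Matrix.of_apply]
        induction j using Fin.addCases with
        | left j =>
          rw [Fin.addCases_left, Fin.addCases_left]
          split_ifs
          · exact Qle _ _
          · rw [degreeOf_zero]; exact Nat.zero_le _
        | right j =>
          rw [Fin.addCases_right, Fin.addCases_right]
          split_ifs
          · exact gle _ _
          · rw [degreeOf_zero]; exact Nat.zero_le _)
    rw [Fin.sum_univ_add] at h5
    simp only [Fin.addCases_left, Fin.addCases_right, Finset.sum_const, Finset.card_univ,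
      Fintype.card_fin, smul_eq_mul] at h5
    refine h5.trans ?_
    have := Nat.mul_le_mul_right (Q.degreeOf h) hD0
    omega
  · -- height
    intro hR0
    have hQne : Q ≠ 0 := by
      rintro rfl
      apply hR0
      have h5 : P' = 0 := by rw [hP', map_zero]
      rw [hR, h5, Polynomial.resultant_zero_right, zero_pow (by omega), zero_mul]
    set m1 := Fintype.card V with hm1
    set c : ℝ := (((D0 : ℝ) + 1) ^ (m1 + 1)) ^ N0 * (((N : ℝ) + 1) ^ (m1 + 1)) ^ D with hc
    have hD0r : (1 : ℝ) ≤ (D0 : ℝ) + 1 := by linarith [Nat.cast_nonneg (α := ℝ) D0]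
    have hNr : (1 : ℝ) ≤ (N : ℝ) + 1 := by linarith [Nat.cast_nonneg (α := ℝ) N]
    have hc1 : 1 ≤ c := one_le_mul_of_one_le_of_one_le (one_le_pow₀ (one_le_pow₀ hD0r))
      (one_le_pow₀ (one_le_pow₀ hNr))
    have hloc : ∀ v : AbsoluteValue K ℝ, v ∈ AdmissibleAbsValues.archAbsVal ∨
        v ∈ AdmissibleAbsValues.nonarchAbsVal → ∀ m,
      v (coeff m R) ≤ cst v c * (⨆ m : g.support, v (coeff m.1 g)) ^ N0 *
        (⨆ m : Q.support, v (coeff m.1 Q)) ^ D := by
      intro v _ m
      obtain ⟨hfr, -, hco⟩ := h4 K v V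
      set G : ℝ := ⨆ m : g.support, v (coeff m.1 g) with hG
      set H : ℝ := ⨆ m : Q.support, v (coeff m.1 Q) with hH
      have hG0 : 0 ≤ G := sup_nonneg v g
      have hH0 : 0 ≤ H := sup_nonneg v Q
      have hcg : ∀ k, NPol v (P.coeff k) (cst v (((D0 : ℝ) + 1) ^ m1) * G) := by
        intro k
        refine npol_of_coeff v _ D0 G hG0 (fun m => ?_) (fun h => (gle k h).trans (hgD h))
        rw [gco]
        split_ifs
        · exact coeff_le_sup v g _
        · rw [map_zero]; exact hG0
      have hcQ : ∀ k, NPol v (P'.coeff k) (cst v (((N : ℝ) + 1) ^ m1) * H) := by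
        intro k
        refine npol_of_coeff v _ N H hH0 (fun m => ?_) (fun h => (Qle k h).trans (hQN h))
        rw [Qco]
        split_ifs
        · exact coeff_le_sup v Q _
        · rw [map_zero]; exact hH0
      have hz : ∀ T : ℝ, 0 ≤ T → NPol v (0 : MvPolynomial V K) T := by
        intro T hT
        have h5 := hfr.const 0
        rw [map_zero, map_zero] at h5
        exact hfr.mono _ _ _ h5 hT
      have hg0' : 0 ≤ cst v (((D0 : ℝ) + 1) ^ m1) * G :=
        mul_nonneg (cst_nonneg' v (by positivity)) hG0
      have hQ0' : 0 ≤ cst v (((N : ℝ) + 1) ^ m1) * H :=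
        mul_nonneg (cst_nonneg' v (by positivity)) hH0
      have hdet := h2 K v (MvPolynomial V K) (NPol v) hfr (D + N0)
        (Polynomial.sylvester P P' D N0).transpose
        (fun j => Fin.addCases (motive := fun _ => ℕ) (fun _ => N + 1) (fun _ => D0 + 1) j)
        (fun j => Fin.addCases (motive := fun _ => ℝ) (fun _ => cst v (((N : ℝ) + 1) ^ m1) * H)
          (fun _ => cst v (((D0 : ℝ) + 1) ^ m1) * G) j)
        (by
          intro i
          induction i using Fin.addCases with
          | left j =>
            rw [Fin.addCases_left]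
            refine (card_icc (j : ℕ) N0 _ fun i hi => ?_).trans (Nat.succ_le_succ hN0)
            by_contra hcon
            apply hi
            rw [Matrix.transpose_apply]
            unfold Polynomial.sylvester
            rw [Matrix.of_apply, Fin.addCases_left, if_neg hcon]
          | right j =>
            rw [Fin.addCases_right]
            refine (card_icc (j : ℕ) D _ fun i hi => ?_).trans (Nat.succ_le_succ hD0)
            by_contra hcon
            apply hi
            rw [Matrix.transpose_apply]
            unfold Polynomial.sylvester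
            rw [Matrix.of_apply, Fin.addCases_right, if_neg hcon])
        (by
          intro i
          induction i using Fin.addCases with
          | left j => rw [Fin.addCases_left]; omega
          | right j => rw [Fin.addCases_right]; omega)
        (by
          intro i
          induction i using Fin.addCases with
          | left j => rw [Fin.addCases_left]; exact hQ0'
          | right j => rw [Fin.addCases_right]; exact hg0')
        (by
          intro i j
          rw [Matrix.transpose_apply]
          unfold Polynomial.sylvester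
          rw [Matrix.of_apply]
          induction i using Fin.addCases with
          | left i =>
            rw [Fin.addCases_left, Fin.addCases_left]
            split_ifs
            · exact hcQ _
            · exact hz _ hQ0'
          | right i =>
            rw [Fin.addCases_right, Fin.addCases_right]
            split_ifs
            · exact hcg _
            · exact hz _ hg0')
      rw [Matrix.det_transpose, Fin.prod_univ_add] at hdet
      simp only [Fin.addCases_left, Fin.addCases_right, Finset.prod_const, Finset.card_univ,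
        Fintype.card_fin] at hdet
      refine (hco _ _ m hdet).trans (le_of_eq ?_)
      push_cast
      unfold cst
      split_ifs
      · ring
      · have h7 : (((N : ℝ) + 1) * (((N : ℝ) + 1) ^ m1 * H)) ^ D =
            (((N : ℝ) + 1) ^ (m1 + 1)) ^ D * H ^ D := by
          rw [← mul_pow]
          congr 1
          ring
        have h8 : (((D0 : ℝ) + 1) * (((D0 : ℝ) + 1) ^ m1 * G)) ^ N0 =
            (((D0 : ℝ) + 1) ^ (m1 + 1)) ^ N0 * G ^ N0 := by
          rw [← mul_pow]
          congr 1
          ring
        rw [hc, h7, h8]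
        ring
    have h6 := h3 K V R g Q N0 D c hR0 hgne hQne hc1 hloc
    have hlogc : Real.log c ≤ (m1 + 1) * (2 * D0) * N := by
      rw [hc, Real.log_mul (by positivity) (by positivity), Real.log_pow, Real.log_pow,
        Real.log_pow, Real.log_pow]
      have h7 := log_add_one_le D0
      have h8 := log_add_one_le N
      have h9 : 0 ≤ Real.log ((D0 : ℝ) + 1) := Real.log_nonneg hD0r
      have h10 : 0 ≤ Real.log ((N : ℝ) + 1) := Real.log_nonneg hNr
      have h11 : (N0 : ℝ) ≤ N := by exact_mod_cast hN0
      have h12 : (D : ℝ) ≤ D0 := by exact_mod_cast hD0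
      have h13 : (N0 : ℝ) * Real.log ((D0 : ℝ) + 1) ≤ N * D0 :=
        mul_le_mul h11 h7 h9 (Nat.cast_nonneg _)
      have h14 : (D : ℝ) * Real.log ((N : ℝ) + 1) ≤ D0 * N :=
        mul_le_mul h12 h8 h10 (Nat.cast_nonneg _)
      push_cast
      have h15 : (0 : ℝ) ≤ (m1 : ℝ) + 1 := by positivity
      calc (N0 : ℝ) * (((m1 : ℝ) + 1) * Real.log ((D0 : ℝ) + 1)) +
            D * (((m1 : ℝ) + 1) * Real.log ((N : ℝ) + 1))
          = ((m1 : ℝ) + 1) * (N0 * Real.log ((D0 : ℝ) + 1) + D * Real.log ((N : ℝ) + 1)) := by
            ring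
        _ ≤ ((m1 : ℝ) + 1) * (N * D0 + D0 * N) :=
            mul_le_mul_of_nonneg_left (add_le_add h13 h14) h15
        _ = (m1 + 1) * (2 * D0) * N := by ring
    have hPQ : 0 ≤ Real.log (PH Q) := Real.log_nonneg (one_le_mulHeight _)
    have h16 : (D : ℝ) * Real.log (PH Q) ≤ D0 * Real.log (PH Q) :=
      mul_le_mul_of_nonneg_right (by exact_mod_cast hD0) hPQ
    have h17 : (Module.finrank ℚ K : ℝ) * Real.log c ≤
        Module.finrank ℚ K * ((m1 + 1) * (2 * D0) * N) :=
      mul_le_mul_of_nonneg_left hlogc (Nat.cast_nonneg _)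
    calc Real.log (PH R) ≤ Module.finrank ℚ K * Real.log c + N0 * Real.log (PH g) +
          D * Real.log (PH Q) := h6
      _ ≤ Module.finrank ℚ K * ((m1 + 1) * (2 * D0) * N) + N0 * Real.log (PH g) +
          D0 * Real.log (PH Q) := by linarith
      _ = _ := by ring
  · -- membership
    obtain ⟨p, q, -, -, hpq⟩ := Polynomial.exists_mul_add_mul_eq_C_resultant P P'
      (m := D) (n := N0) (le_of_eq gdeg) (Qdeg.le.trans hQ0) (Or.inl (by omega))
    refine ⟨p.eval (X h0), q.eval (X h0), ?_⟩
    have h5 := congrArg (Polynomial.eval (X h0 : MvPolynomial V K)) hpq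
    rw [Polynomial.eval_add, Polynomial.eval_mul, Polynomial.eval_mul, Polynomial.eval_C, gX,
      QX] at h5
    rw [hR, ← h5]
    ring
  · -- non-vanishing
    intro Ω _ _ _ x hx ht
    set φ : MvPolynomial V K →+* Ω := (aeval x : MvPolynomial V K →ₐ[K] Ω).toRingHom with hφ
    have h5 : aeval x R = Polynomial.resultant (P.map φ) (P'.map φ) D N0 := by
      rw [Polynomial.resultant_map_map]
      rfl
    have hPne : P ≠ 0 := by
      intro h6
      rw [h6, Polynomial.natDegree_zero] at gdeg
      omega
    have hlead : φ P.leadingCoeff ≠ 0 := by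
      refine hx _ (Polynomial.leadingCoeff_ne_zero.2 hPne) (fun h => gle _ h) (gz _)
    have hdeg : (P.map φ).natDegree = D := by
      rw [Polynomial.natDegree_map_of_leadingCoeff_ne_zero _ hlead, gdeg]
    have h6 := Polynomial.resultant_eq_prod_eval (P.map φ) (P'.map φ) N0
      (Polynomial.natDegree_map_le.trans (Qdeg.le.trans hQ0)) (IsAlgClosed.splits _)
    rw [hdeg] at h6
    rw [h5, h6]
    refine mul_ne_zero (pow_ne_zero _ ?_) ?_
    · rw [Polynomial.leadingCoeff_map_of_leadingCoeff_ne_zero _ hlead]
      exact hlead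
    · rw [Ne, Multiset.prod_eq_zero_iff, Multiset.mem_map]
      rintro ⟨t, ht1, ht2⟩
      have h7 : (P.map φ).eval t = 0 := (Polynomial.mem_roots'.1 ht1).2
      have h8 := gev Ω x t
      have h9 := Qev Ω x t
      rw [← hφ] at h8 h9
      exact ht t (h8.symm.trans h7) (h9.symm.trans ht2)

end

end Pool.Agent.Helper34.ZH.RESE
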